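import Pool.Agent.H91.AV.Targets

/-!
Row MINK of the board `av_modules`: the triangle inequality.
-/

set_option autoImplicit false

namespace Pool.Agent.H13.AV

open Finset Pool.Agent.H91.AV
open Pool.Agent.H96.KX (psz fac jun PDz prs)

theorem pf_MINK : S_MINK := by
  intro A X _ _ r C u n hr hu hn h
  have hr0 : r ≠ 0 := by omega
  have h0 : ∀ x, n x = 0 → ∀ a, u x a = 0 := by
    intro x hx a
    have h1 := h x
    rw [hx, zero_pow hr0, mul_zero] at h1
    have h2 : u x a ^ r ≤ ∑ a, u x a ^ r :=
      Finset.single_le_sum (f := fun a => u x a ^ r) (fun a _ => pow_nonneg (hu x a) r)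
        (Finset.mem_univ a)
    have h3 : u x a ^ r = 0 := le_antisymm (h2.trans h1) (pow_nonneg (hu x a) r)
    exact (pow_eq_zero_iff hr0).1 h3
  have hNn : 0 ≤ ∑ x, n x := Finset.sum_nonneg fun x _ => hn x
  rcases hNn.eq_or_lt with hN | hN
  · have hz : ∀ x, n x = 0 := fun x =>
      (Finset.sum_eq_zero_iff_of_nonneg (fun x _ => hn x)).1 hN.symm x (mem_univ x)
    rw [← hN, zero_pow hr0, mul_zero]
    apply le_of_eq
    apply Finset.sum_eq_zero
    intro a _
    rw [Finset.sum_eq_zero (fun x _ => h0 x (hz x) a), zero_pow hr0]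
  · obtain ⟨N, hNd⟩ : ∃ N, N = ∑ x, n x := ⟨_, rfl⟩
    rw [← hNd] at hN ⊢
    have key : ∀ a, (∑ x, u x a) ^ r ≤ ∑ x, (n x / N) * (N * u x a / n x) ^ r := by
      intro a
      have h1 := Real.pow_arith_mean_le_arith_mean_pow Finset.univ (fun x => n x / N)
        (fun x => N * u x a / n x) (fun x _ => div_nonneg (hn x) hN.le)
        (by rw [← Finset.sum_div, ← hNd, div_self hN.ne'])
        (fun x _ => div_nonneg (mul_nonneg hN.le (hu x a)) (hn x)) r
      have e : ∑ x, n x / N * (N * u x a / n x) = ∑ x, u x a := by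
        refine Finset.sum_congr rfl fun x _ => ?_
        by_cases hx : n x = 0
        · rw [hx, h0 x hx a]; simp
        · field_simp
      rwa [e] at h1
    calc ∑ a, (∑ x, u x a) ^ r ≤ ∑ a, ∑ x, (n x / N) * (N * u x a / n x) ^ r :=
          Finset.sum_le_sum fun a _ => key a
      _ = ∑ x, (n x / N) * (N / n x) ^ r * ∑ a, u x a ^ r := by
          rw [Finset.sum_comm]
          refine Finset.sum_congr rfl fun x _ => ?_
          rw [Finset.mul_sum]
          refine Finset.sum_congr rfl fun a _ => ?_
          have h1 : N * u x a / n x = N / n x * u x a := by ring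
          rw [h1, mul_pow]
          ring
      _ ≤ ∑ x, (n x / N) * (N / n x) ^ r * (C * n x ^ r) := by
          refine Finset.sum_le_sum fun x _ => ?_
          exact mul_le_mul_of_nonneg_left (h x) (mul_nonneg (div_nonneg (hn x) hN.le)
            (pow_nonneg (div_nonneg hN.le (hn x)) r))
      _ = ∑ x, (n x / N) * (C * N ^ r) := by
          refine Finset.sum_congr rfl fun x _ => ?_
          by_cases hx : n x = 0
          · rw [hx]; simp
          · rw [div_pow]
            field_simp
      _ = C * N ^ r := by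
          rw [← Finset.sum_mul, ← Finset.sum_div, ← hNd, div_self hN.ne', one_mul]

end Pool.Agent.H13.AV
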